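import Mathlib

set_option autoImplicit false

namespace Pool.Agent.Results.MP_cc6d20_al.Semi

/-- terms in the two divisions: `l s t` is left division, `r s t` is right division -/
inductive Term : Type
  | v : ℕ → Term
  | l : Term → Term → Term
  | r : Term → Term → Term

def Term.eval {S : Type} (ld rd : S → S → S) (a : ℕ → S) : Term → S
  | .v n => a n
  | .l s t => ld (s.eval ld rd a) (t.eval ld rd a)
  | .r s t => rd (s.eval ld rd a) (t.eval ld rd a)

def Term.hasL : Term → Bool
  | .v _ => false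
  | .l _ _ => true
  | .r s t => s.hasL || t.hasL

def Term.hasR : Term → Bool
  | .v _ => false
  | .l s t => s.hasR || t.hasR
  | .r _ _ => true

/-- both operations occur in the identity -/
def Mixed (p : Term × Term) : Prop :=
  (p.1.hasL = true ∨ p.2.hasL = true) ∧ (p.1.hasR = true ∨ p.2.hasR = true)

/-- `(S, ld, rd)` is the division bimagma of an inverse semigroup on `S` -/
def IsDiv {S : Type} (ld rd : S → S → S) : Prop :=
  ∃ (m : S → S → S) (i : S → S), (∀ x y z, m (m x y) z = m x (m y z)) ∧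
    (∀ x, m (m x (i x)) x = x ∧ m (m (i x) x) (i x) = i x ∧
      ∀ y, m (m x y) x = x → m (m y x) y = y → y = i x) ∧
    ∀ x y, ld x y = m (i x) y ∧ rd x y = m x (i y)

def Ax {S : Type} (l r : S → S → S) : Prop :=
  (∀ x y z, l (r x y) z = r y (l z x)) ∧ (∀ x, l (r x x) x = x) ∧
  (∀ x y z w, r x (r y (r z w)) = r (r x (r w z)) y) ∧
  (∀ x y z, r (r x (r x (r z z))) (r (r y (r z z)) x) = r x (r y (r z z))) ∧
  (∀ x y, r (r x x) (r y x) = r x y) ∧ (∀ x y, r (r x x) (r y y) = r (r y y) (r x x)) ∧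
  (∀ x y z, l (l x (l (l z z) y)) (l (l (l z z) x) x) = l (l (l z z) y) x) ∧
  (∀ x y, l (l x x) (l y y) = l (l y y) (l x x))

open Term in
def Sig : Set (Term × Term) :=
  {(l (r (v 0) (v 1)) (v 2), r (v 1) (l (v 2) (v 0))), (l (r (v 0) (v 0)) (v 0), v 0),
   (r (v 0) (r (v 1) (r (v 2) (v 3))), r (r (v 0) (r (v 3) (v 2))) (v 1)),
   (r (r (v 0) (r (v 0) (r (v 2) (v 2)))) (r (r (v 1) (r (v 2) (v 2))) (v 0)),
     r (v 0) (r (v 1) (r (v 2) (v 2)))),
   (r (r (v 0) (v 0)) (r (v 1) (v 0)), r (v 0) (v 1)),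
   (r (r (v 0) (v 0)) (r (v 1) (v 1)), r (r (v 1) (v 1)) (r (v 0) (v 0))),
   (l (l (v 0) (l (l (v 2) (v 2)) (v 1))) (l (l (l (v 2) (v 2)) (v 0)) (v 0)),
     l (l (l (v 2) (v 2)) (v 1)) (v 0)),
   (l (l (v 0) (v 0)) (l (v 1) (v 1)), l (l (v 1) (v 1)) (l (v 0) (v 0)))}

def asg {S : Type} (x y z w : S) : ℕ → S
  | 0 => x
  | 1 => y
  | 2 => z
  | _ => w

lemma sig_iff {S : Type} (l r : S → S → S) :
    (∀ p ∈ Sig, ∀ a : ℕ → S, p.1.eval l r a = p.2.eval l r a) ↔ Ax l r := by
  simp only [Sig, Set.mem_insert_iff, Set.mem_singleton_iff, forall_eq_or_imp, forall_eq,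
    Term.eval]
  constructor
  · rintro ⟨h1, h2, h3, h4, h5, h6, h7, h8⟩
    exact ⟨fun x y z => h1 (asg x y z z), fun x => h2 (asg x x x x),
      fun x y z w => h3 (asg x y z w), fun x y z => h4 (asg x y z z),
      fun x y => h5 (asg x y x x), fun x y => h6 (asg x y x x),
      fun x y z => h7 (asg x y z z), fun x y => h8 (asg x y x x)⟩
  · rintro ⟨h1, h2, h3, h4, h5, h6, h7, h8⟩
    exact ⟨fun a => h1 _ _ _, fun a => h2 _, fun a => h3 _ _ _ _, fun a => h4 _ _ _,
      fun a => h5 _ _, fun a => h6 _ _, fun a => h7 _ _ _, fun a => h8 _ _⟩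

lemma ax_of_div {S : Type} (l r : S → S → S) (h : IsDiv l r) : Ax l r := by
  obtain ⟨m, i, ha, hi, hd⟩ := h
  have hl : l = fun x y => m (i x) y := by funext x y; exact (hd x y).1
  have hr : r = fun x y => m x (i y) := by funext x y; exact (hd x y).2
  have a1 : ∀ x y, m x (m (i x) (m x y)) = m x y := fun x y => by
    rw [← ha, ← ha, (hi x).1]
  have a2 : ∀ x y, m (i x) (m x (m (i x) y)) = m (i x) y := fun x y => by
    rw [← ha, ← ha, (hi x).2.1]
  have b1 : ∀ x, m x (m (i x) x) = x := fun x => by rw [← ha, (hi x).1]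
  have b2 : ∀ x, m (i x) (m x (i x)) = i x := fun x => by rw [← ha, (hi x).2.1]
  have ii : ∀ x, i (i x) = x := fun x => ((hi (i x)).2.2 x (hi x).2.1 (hi x).1).symm
  have ie : ∀ e, m e e = e → i e = e := fun e he =>
    ((hi e).2.2 e (by rw [he, he]) (by rw [he, he])).symm
  have p1 : ∀ e f, m e e = e → m f f = f → m (m e f) (m e f) = m e f := by
    intro e f he hf
    have he' : ∀ y, m e (m e y) = m e y := fun y => by rw [← ha, he]
    have hf' : ∀ y, m f (m f y) = m f y := fun y => by rw [← ha, hf]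
    have c1 := a1 (m e f)
    have c2 := a2 (m e f)
    have c3 := b1 (m e f)
    simp only [ha] at c1 c2 c3
    have d1 : m f (m (i (m e f)) e) = i (m e f) := by
      refine (hi (m e f)).2.2 _ ?_ ?_
      · simp only [ha, he', hf', c3]
      · simp only [ha, he', hf', c2]
    have d2 : m (i (m e f)) (i (m e f)) = i (m e f) := by
      conv_lhs => rw [← d1]
      simp only [ha, c2]
      exact d1
    have d3 := ie _ d2
    rw [ii] at d3
    rw [d3]
    exact d2
  have cm : ∀ e f, m e e = e → m f f = f → m e f = m f e := by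
    intro e f he hf
    have he' : ∀ y, m e (m e y) = m e y := fun y => by rw [← ha, he]
    have hf' : ∀ y, m f (m f y) = m f y := fun y => by rw [← ha, hf]
    have c1 := p1 e f he hf
    have c2 := p1 f e hf he
    have c3 := ie _ c1
    simp only [ha] at c1 c2
    rw [← c3]
    refine ((hi (m e f)).2.2 _ ?_ ?_).symm
    · simp only [ha, he', hf', c1]
    · simp only [ha, he', hf', c2]
  have e1 : ∀ x, m (m x (i x)) (m x (i x)) = m x (i x) := fun x => by simp only [ha, b2]
  have e2 : ∀ x, m (m (i x) x) (m (i x) x) = m (i x) x := fun x => by simp only [ha, b1]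
  have k : ∀ x y z, m (i x) (m x (m y (m (i y) z))) = m y (m (i y) (m (i x) (m x z))) := by
    intro x y z
    have := congrArg (fun t => m t z) (cm _ _ (e2 x) (e1 y))
    simpa only [ha] using this
  have im : ∀ x y, i (m x y) = m (i y) (i x) := by
    intro x y
    refine ((hi (m x y)).2.2 _ ?_ ?_).symm
    · simp only [ha]
      rw [← k, b1, a1]
    · simp only [ha]
      rw [k, b2, a2]
  subst hl hr
  refine ⟨fun x y z => ?_, fun x => ?_, fun x y z w => ?_, fun x y z => ?_, fun x y => ?_,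
    fun x y => ?_, fun x y z => ?_, fun x y => ?_⟩
  · simp only [im, ii, ha]
  · simp only [im, ii, ha, b1]
  · simp only [im, ii, ha]
  · simp only [im, ii, ha]
    rw [k x z, a1 z, ← k, a1]
  · simp only [im, ii, ha, a1]
  · simp only [im, ii]
    exact cm _ _ (e1 x) (e1 y)
  · simp only [im, ii, ha]
    rw [← k z x, a2 z, b1]
  · simp only [im, ii]
    exact cm _ _ (e2 x) (e2 y)

lemma div_of_ax {S : Type} (l r : S → S → S) (h : Ax l r) : IsDiv l r := by
  obtain ⟨t1, t2, p1, p3, p4, p5, q3, q5⟩ := h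
  have t3 : ∀ x, r x (l x x) = x := fun x => by rw [← t1, t2]
  have f1 : ∀ x, r (l x x) (l x x) = l x x := fun x => by rw [← t1, t3]
  have f2 : ∀ x, l (r x x) (r x x) = r x x := fun x => by rw [t1, t2]
  obtain ⟨i, hi⟩ : ∃ i : S → S, ∀ a, i a = r (l a a) a := ⟨_, fun _ => rfl⟩
  have t4 : ∀ w z, i (r w z) = r z w := by
    intro w z
    have := p3 z w (l w w)
    rw [f1, t3] at this
    rw [hi, t1, t1, this]
  have t5 : ∀ w z, l (l z w) (r (l z w) (l z w)) = l w z := by
    intro w z
    have := q3 z w (r w w)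
    rw [f2, t2] at this
    rw [← t1, ← t1, this]
  have ii : ∀ a, i (i a) = a := fun a => by rw [hi a, t4, t3]
  obtain ⟨m, hm⟩ : ∃ m : S → S → S, ∀ x y, m x y = r x (i y) := ⟨_, fun _ _ => rfl⟩
  have rm : ∀ x y, r x y = m x (i y) := fun x y => by rw [hm, ii]
  have ha : ∀ x y z, m (m x y) z = m x (m y z) := by
    intro x y z
    have := p1 x (i z) y (l y y)
    rw [t3, ← hi] at this
    rw [hm, hm, hm, hm, t4, this]
  have im : ∀ x y, i (m x y) = m (i y) (i x) := fun x y => by rw [hm, t4, rm]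
  have b1 : ∀ x, m x (m (i x) x) = x := by
    intro x
    have h1 := p4 x (l x x)
    have h2 := t3 x
    rw [t3, ← hi, rm, rm, ii, ha] at h1
    exact h1
  have b2 : ∀ x, m (i x) (m x (i x)) = i x := fun x => by
    have := b1 (i x)
    rwa [ii] at this
  have c0 : ∀ x y, m (m x (i x)) (m y (i y)) = m (m y (i y)) (m x (i x)) := by
    intro x y
    have := p5 x y
    simpa only [rm, im, ii] using this
  have ie : ∀ e, m e e = e → i e = e := by
    intro e he
    have h1 : m (i e) (i e) = i e := by rw [← im, he]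
    have h2 := c0 e (i e)
    rw [ii, ha, ← ha (i e), h1, b1, ha, ← ha e, he, b2] at h2
    exact h2.symm
  have cm : ∀ e f, m e e = e → m f f = f → m e f = m f e := by
    intro e f he hf
    have := c0 e f
    rwa [ie e he, ie f hf, he, hf] at this
  have e1 : ∀ x, m (m x (i x)) (m x (i x)) = m x (i x) := fun x => by simp only [ha, b2]
  have e2 : ∀ x, m (m (i x) x) (m (i x) x) = m (i x) x := fun x => by simp only [ha, b1]
  have u1 : ∀ a b z, l (m a (i b)) z = m b (i (l z a)) := fun a b z => by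
    rw [← rm, t1, rm]
  have u2 : ∀ x, l x (r x x) = i x := by
    intro x
    have := u1 x (m (i x) x) (r x x)
    rwa [t2, im, ii, b1, ha, b2] at this
  have u3 : ∀ w z, i (l z w) = l w z := fun w z => by rw [← u2, t5]
  have u4 : ∀ a b z, l (m a b) z = m (i b) (l a z) := fun a b z => by
    have := u1 a (i b) z
    rwa [ii, u3] at this
  have u5 : ∀ a b z, l z (m a b) = m (l z a) b := fun a b z => by
    rw [← u3, u4, im, ii, u3]
  have u6 : ∀ e, m e e = e → l e e = e := by
    intro e he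
    have := t2 e
    rwa [rm, ie e he, he] at this
  have u7 : ∀ e g, m e e = e → m g g = g → l e g = m e g := by
    intro e g he hg
    have h1 := q5 e g
    rw [u6 e he, u6 g hg] at h1
    have h2 := u4 g g e
    rw [hg, ie g hg, ← h1] at h2
    have h3 := u4 e g g
    have h4 := u4 g e g
    rw [ie e he, u6 g hg, ← cm e g he hg, h3, ie g hg, ← h2] at h4
    exact h4
  refine ⟨m, i, ha, fun x => ⟨by rw [ha, b1], by rw [ha, b2], fun y h1 h2 => ?_⟩,
    fun x y => ⟨?_, rm x y⟩⟩
  · have g1 : m (m x y) (m x y) = m x y := by rw [← ha, h1]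
    have g2 : m (m y x) (m y x) = m y x := by rw [← ha, h2]
    calc y = m (m y (m x (m (i x) x))) y := by rw [b1, h2]
      _ = m (m (m y x) (m (i x) x)) y := by simp only [ha]
      _ = m (m (m (i x) x) (m y x)) y := by rw [cm _ _ g2 (e2 x)]
      _ = m (m (i x) x) (m (m y x) y) := by simp only [ha]
      _ = m (m (m (i x) (m x (i x))) x) y := by rw [h2, b2]
      _ = m (i x) (m (m x (i x)) (m x y)) := by simp only [ha]
      _ = m (i x) (m (m x y) (m x (i x))) := by rw [cm _ _ g1 (e1 x)]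
      _ = m (i x) (m (m (m x y) x) (i x)) := by simp only [ha]
      _ = i x := by rw [h1, b2]
  · calc l x y = l (m (m x (i x)) x) (m (m y (i y)) y) := by rw [ha, ha, b1, b1]
      _ = m (i x) (m (m (m x (i x)) (m y (i y))) y) := by
        rw [u4, u5, u7 _ _ (e1 x) (e1 y)]
      _ = m (m (i x) (m x (i x))) (m y (m (i y) y)) := by simp only [ha]
      _ = m (i x) y := by rw [b1, b2]

theorem result : ∃ Sg : Set (Term × Term), Sg.Finite ∧ {p ∈ Sg | Mixed p}.encard ≤ 2 ∧
    ∀ (S : Type) (ld rd : S → S → S),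
      (∀ p ∈ Sg, ∀ a : ℕ → S, p.1.eval ld rd a = p.2.eval ld rd a) ↔ IsDiv ld rd := by
  refine ⟨Sig, by unfold Sig; exact Set.toFinite _, ?_,
    fun S l r => (sig_iff l r).trans ⟨div_of_ax l r, ax_of_div l r⟩⟩
  have : {p ∈ Sig | Mixed p} ⊆ {(.l (.r (.v 0) (.v 1)) (.v 2), .r (.v 1) (.l (.v 2) (.v 0))),
      (.l (.r (.v 0) (.v 0)) (.v 0), .v 0)} := by
    rintro p ⟨hp, hm⟩
    simp only [Sig, Set.mem_insert_iff, Set.mem_singleton_iff] at hp
    rcases hp with rfl | rfl | rfl | rfl | rfl | rfl | rfl | rfl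
    · exact Or.inl rfl
    · exact Or.inr rfl
    all_goals simp [Mixed, Term.hasL, Term.hasR] at hm
  refine (Set.encard_le_encard this).trans ((Set.encard_insert_le _ _).trans ?_)
  rw [Set.encard_singleton]
  exact le_of_eq one_add_one_eq_two

end Pool.Agent.Results.MP_cc6d20_al.Semi
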